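import Mathlib

/-!
# The fixed point of `1 ↦ 12122121`, `2 ↦ 2` : definitions
-/

namespace Pool.Agent.Helper162_fix

/-- The words `x_n` over the alphabet `{1, 2}`: `x_1 = 12` and
`x_{n+1} = x_n x_n x_n^R x_n^R 2` for `n ≥ 1` (and `x_0` is the empty word, which is not used). -/
def x : ℕ → List ℕ
  | 0 => []
  | 1 => [1, 2]
  | n + 2 =>
    x (n + 1) ++ x (n + 1) ++ (x (n + 1)).reverse ++ (x (n + 1)).reverse ++ [2]

/-- The infinite word: its letter at position `i` is the letter at position `i` of `x_{i+1}`. -/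
def a (i : ℕ) : ℕ := (x (i + 1)).getD i 0

/-- The `k`-kernel of a sequence `s` : the set of the sequences `n ↦ s (k^e n + j)` with
`0 ≤ j < k^e`. -/
def kernel (k : ℕ) (s : ℕ → ℕ) : Set (ℕ → ℕ) :=
  {b | ∃ e j : ℕ, j < k ^ e ∧ b = fun n => s (k ^ e * n + j)}

/-- A sequence is `k`-automatic if its `k`-kernel is finite. -/
def Automatic (k : ℕ) (s : ℕ → ℕ) : Prop := (kernel k s).Finite

end Pool.Agent.Helper162_fix
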