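import Pool.Agent.Helper162_fix.Defs

namespace Pool.Agent.Helper162_fix

/-- Lengths of the blocks `Y n`. -/
def len : ℕ → ℕ
  | 0 => 1
  | n + 1 => 4 * len n + 4

/-- `Y 0 = 1`, `Y (n+1) = Y n 2 Y n 2 2 Y n 2 Y n`. -/
def Y : ℕ → List ℕ
  | 0 => [1]
  | n + 1 => Y n ++ [2] ++ Y n ++ [2, 2] ++ Y n ++ [2] ++ Y n

lemma length_Y (n : ℕ) : (Y n).length = len n := by
  induction n with
  | zero => rfl
  | succ n ih => simp [Y, len, ih]; ring

lemma reverse_Y (n : ℕ) : (Y n).reverse = Y n := by
  induction n with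
  | zero => rfl
  | succ n ih => simp [Y, ih]

lemma x_eq (n : ℕ) : x (n + 1) = Y n ++ [2] := by
  induction n with
  | zero => rfl
  | succ n ih =>
    rw [x, ih]
    simp [Y, reverse_Y]

lemma Y_letters (n : ℕ) : ∀ y ∈ Y n, y < 3 := by
  induction n with
  | zero => simp [Y]
  | succ n ih =>
    intro y hy
    simp only [Y, List.mem_append, List.mem_cons, List.not_mem_nil, or_false] at hy
    rcases hy with (((((h | h) | h) | (h | h)) | h) | h) | h
    all_goals first | exact ih y h | omega

lemma Y_prefix_succ (n : ℕ) : Y n <+: Y (n + 1) := by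
  refine ⟨[2] ++ Y n ++ [2, 2] ++ Y n ++ [2] ++ Y n, ?_⟩
  simp [Y]

lemma Y_prefix {m n : ℕ} (h : m ≤ n) : Y m <+: Y n := by
  induction n, h using Nat.le_induction with
  | base => exact List.prefix_rfl
  | succ n _ ih => exact ih.trans (Y_prefix_succ n)

lemma lt_len (n : ℕ) : n < len n := by
  induction n with
  | zero => simp [len]
  | succ n ih => simp only [len]; omega

lemma len_mono {m n : ℕ} (h : m ≤ n) : len m ≤ len n := by
  rw [← length_Y, ← length_Y]
  exact (Y_prefix h).length_le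

lemma len_eq (n : ℕ) : 3 * len n + 4 = 7 * 4 ^ n := by
  induction n with
  | zero => rfl
  | succ n ih => simp only [len, pow_succ]; omega

lemma prefix_get {l₁ l₂ : List ℕ} (h : l₁ <+: l₂) (i : ℕ) (hi : i < l₁.length) :
    l₂[i]? = l₁[i]? := by
  obtain ⟨t, rfl⟩ := h
  exact List.getElem?_append_left hi

lemma Y_get_a (n i : ℕ) (h : i < len n) : (Y n)[i]? = some (a i) := by
  have hi : i < (Y i).length := by rw [length_Y]; exact lt_len i
  have e : (Y n)[i]? = (Y i)[i]? := by
    rcases le_total n i with hni | hni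
    · exact (prefix_get (Y_prefix hni) i (by rwa [length_Y])).symm
    · exact prefix_get (Y_prefix hni) i hi
  rw [e, a, x_eq, List.getD_eq_getElem?_getD, List.getElem?_append_left hi,
    List.getElem?_eq_getElem hi]
  rfl

/-- The letters of `a` are `1` and `2`. -/
lemma a_lt (i : ℕ) : a i < 3 := by
  have h := Y_get_a i i (lt_len i)
  exact Y_letters i _ (List.mem_of_getElem? h)

/-- Every `x_n` is a prefix of the infinite word. -/
lemma x_prefix_a (n i : ℕ) (h : i < (x n).length) : (x n)[i]? = some (a i) := by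
  match n, h with
  | 0, h => simp [x] at h
  | n + 1, h =>
    rw [x_eq] at h ⊢
    have h1 : Y n ++ [2] <+: Y (n + 1) :=
      ⟨Y n ++ [2, 2] ++ Y n ++ [2] ++ Y n, by simp [Y]⟩
    rw [← prefix_get h1 i h]
    apply Y_get_a
    rw [← length_Y]
    exact lt_of_lt_of_le h h1.length_le

/-- The set of occurrences of the block `Y n`. -/
def Occ (n P : ℕ) : Prop := ∀ i, i < len n → a (P + i) = a i

lemma occ_zero (n : ℕ) : Occ n 0 := fun i _ => by rw [zero_add]

lemma occ_mono {m n P : ℕ} (h : m ≤ n) (hP : Occ n P) : Occ m P :=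
  fun i hi => hP i (lt_of_lt_of_le hi (len_mono h))

lemma getElem?_mid (s t u : List ℕ) (i : ℕ) (hi : i < t.length) :
    (s ++ (t ++ u))[s.length + i]? = t[i]? := by
  rw [List.getElem?_append_right (by omega), List.getElem?_append_left (by omega)]
  congr 1
  omega

lemma base1 (n i : ℕ) (hi : i < len n) : a (len n + 1 + i) = a i := by
  have h1 : (Y (n + 1))[len n + 1 + i]? = (Y n)[i]? := by
    have e : Y (n + 1) = (Y n ++ [2]) ++ (Y n ++ ([2, 2] ++ Y n ++ [2] ++ Y n)) := by simp [Y]
    have := getElem?_mid (Y n ++ [2]) (Y n) ([2, 2] ++ Y n ++ [2] ++ Y n) i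
      (by rw [length_Y]; exact hi)
    rw [← e] at this
    simpa [length_Y] using this
  rw [Y_get_a n i hi, Y_get_a (n + 1) _ (by simp only [len]; omega)] at h1
  exact Option.some.inj h1

lemma base2 (n i : ℕ) (hi : i < len n) : a (2 * len n + 3 + i) = a i := by
  have h1 : (Y (n + 1))[2 * len n + 3 + i]? = (Y n)[i]? := by
    have e : Y (n + 1) = (Y n ++ [2] ++ Y n ++ [2, 2]) ++ (Y n ++ ([2] ++ Y n)) := by simp [Y]
    have := getElem?_mid (Y n ++ [2] ++ Y n ++ [2, 2]) (Y n) ([2] ++ Y n) i
      (by rw [length_Y]; exact hi)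
    rw [← e] at this
    have e2 : (Y n ++ [2] ++ Y n ++ [2, 2]).length = 2 * len n + 3 := by
      simp [length_Y]; ring
    rwa [e2] at this
  rw [Y_get_a n i hi, Y_get_a (n + 1) _ (by simp only [len]; omega)] at h1
  exact Option.some.inj h1

lemma occ_step1 {n P : ℕ} (h : Occ (n + 1) P) : Occ n (P + (len n + 1)) := by
  intro i hi
  rw [add_assoc, h _ (by simp only [len]; omega), base1 n i hi]

lemma occ_step2 {n P : ℕ} (h : Occ (n + 1) P) : Occ n (P + (2 * len n + 3)) := by
  intro i hi
  rw [add_assoc, h _ (by simp only [len]; omega), base2 n i hi]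

/-- The main lemma: every block `Y n` occurs at arbitrarily large positions in every residue
class. -/
lemma dense (n q r Bd : ℕ) (hq : 0 < q) : ∃ P, Bd ≤ P ∧ P ≡ r [MOD q] ∧ Occ n P := by
  haveI : NeZero (3 * q) := ⟨by omega⟩
  -- a residue `c` attained by infinitely many powers of `4`
  obtain ⟨c, hc⟩ := Finite.exists_infinite_fiber (fun j : ℕ => (4 : ZMod (3 * q)) ^ j)
  have hc' : ∀ m : ℕ, ∃ j, m < j ∧ (4 : ZMod (3 * q)) ^ j = c := by
    intro m
    have : ((fun j : ℕ => (4 : ZMod (3 * q)) ^ j) ⁻¹' {c}).Infinite := Set.infinite_coe_iff.mp hc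
    obtain ⟨j, hj, hmj⟩ := this.exists_gt m
    exact ⟨j, hmj, hj⟩
  have hlen : ∀ j : ℕ, (3 : ZMod (3 * q)) * (len j : ZMod (3 * q)) + 4 = 7 * 4 ^ j := by
    intro j
    have := congrArg (fun t : ℕ => (t : ZMod (3 * q))) (len_eq j)
    push_cast at this
    exact this
  have hB : ∀ B n : ℕ, ∃ P, Occ n P ∧
      (3 : ZMod (3 * q)) * (P : ZMod (3 * q)) = (B : ZMod (3 * q)) * (14 * c + 1) := by
    intro B
    induction B with
    | zero => intro n; exact ⟨0, occ_zero n, by simp⟩
    | succ B ih =>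
      intro n
      obtain ⟨j, hj, hjc⟩ := hc' n
      obtain ⟨P, hP, hP3⟩ := ih (j + 1)
      refine ⟨P + (2 * len j + 3), occ_mono hj.le (occ_step2 hP), ?_⟩
      have := hlen j
      rw [hjc] at this
      push_cast
      linear_combination hP3 + 2 * this
  have hA : ∀ B A n : ℕ, ∃ P, (0 < A → Bd ≤ P) ∧ Occ n P ∧
      (3 : ZMod (3 * q)) * (P : ZMod (3 * q)) =
        (A : ZMod (3 * q)) * (7 * c - 1) + (B : ZMod (3 * q)) * (14 * c + 1) := by
    intro B A
    induction A with
    | zero =>
      intro n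
      obtain ⟨P, hP, h3⟩ := hB B n
      exact ⟨P, by simp, hP, by simpa using h3⟩
    | succ A ih =>
      intro n
      obtain ⟨j, hj, hjc⟩ := hc' (max n Bd)
      obtain ⟨P, -, hP, hP3⟩ := ih (j + 1)
      refine ⟨P + (len j + 1), fun _ => ?_, occ_mono (by omega) (occ_step1 hP), ?_⟩
      · have := lt_len j
        omega
      · have := hlen j
        rw [hjc] at this
        push_cast
        linear_combination hP3 + this
  set r' := r % q with hr'
  have hr'q : r' < q := Nat.mod_lt _ hq
  obtain ⟨P, hP1, hP2, hP3⟩ := hA r' (3 * q * (r' + 1) - 2 * r') n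
  refine ⟨P, hP1 ?_, ?_, hP2⟩
  · have : 2 * r' < 3 * q * (r' + 1) := by nlinarith
    omega
  · have hle : 2 * r' ≤ 3 * q * (r' + 1) := by nlinarith
    have hzero : ((3 * q : ℕ) : ZMod (3 * q)) = 0 := ZMod.natCast_self _
    have key : ((3 * P : ℕ) : ZMod (3 * q)) = ((3 * r' : ℕ) : ZMod (3 * q)) := by
      rw [Nat.cast_sub hle] at hP3
      push_cast at hP3 hzero ⊢
      linear_combination hP3 + (r' + 1) * (7 * c - 1) * hzero
    rw [ZMod.natCast_eq_natCast_iff] at key
    have h1 : P ≡ r' [MOD q] := Nat.ModEq.mul_left_cancel' (by norm_num) key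
    exact h1.trans (Nat.mod_modEq r q)

/-- The word is not eventually periodic: distinct shifts differ. -/
lemma shifts_differ (i i' : ℕ) (h : i < i') : ∃ t, a (i + t) ≠ a (i' + t) := by
  by_contra hcon
  push Not at hcon
  set π := i' - i with hπ
  have hper : ∀ u, i ≤ u → ∀ s, a (u + s * π) = a u := by
    intro u hu s
    induction s with
    | zero => simp
    | succ s ih =>
      have := hcon (u + s * π - i)
      rw [show i + (u + s * π - i) = u + s * π by omega,
        show i' + (u + s * π - i) = u + (s + 1) * π by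
          rw [add_mul, one_mul]; omega] at this
      rw [← this, ih]
  have ha0 : a 0 = 1 := by decide
  have ha1 : a 1 = 2 := by decide
  obtain ⟨P, hP, hPr, hPo⟩ := dense 1 π 0 i (by omega)
  obtain ⟨Q, hQ, hQr, hQo⟩ := dense 1 π (π - 1) i (by omega)
  have e1 : a P = 1 := by have := hPo 0 (by decide); rwa [add_zero, ha0] at this
  have e2 : a (Q + 1) = 2 := by have := hQo 1 (by decide); rwa [ha1] at this
  have hQr' : Q + 1 ≡ 0 [MOD π] := by
    have := hQr.add_right 1
    rw [show π - 1 + 1 = π by omega] at this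
    exact this.trans (by simp [Nat.ModEq])
  have hPQ : P ≡ Q + 1 [MOD π] := hPr.trans hQr'.symm
  rcases le_total P (Q + 1) with hle | hle
  · obtain ⟨s, hs⟩ := (Nat.modEq_iff_dvd' hle).mp hPQ
    have := hper P hP s
    rw [show P + s * π = Q + 1 by rw [mul_comm]; omega] at this
    omega
  · obtain ⟨s, hs⟩ := (Nat.modEq_iff_dvd' hle).mp hPQ.symm
    have := hper (Q + 1) (by omega) s
    rw [show Q + 1 + s * π = P by rw [mul_comm]; omega] at this
    omega

/-- The infinite word is not `k`-automatic, for any `k ≥ 2`. -/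
theorem not_automatic (k : ℕ) (hk : 2 ≤ k) : ¬ Automatic k a := by
  intro hfin
  classical
  haveI : Fintype (kernel k a) := hfin.fintype
  have hval : ∀ b : kernel k a, ∀ n, b.1 n < 3 := by
    rintro ⟨b, e, j, -, rfl⟩ n
    exact a_lt _
  let F : ℕ → (kernel k a → Fin 3) := fun n b => ⟨b.1 n, hval b n⟩
  set N := Fintype.card (kernel k a → Fin 3) with hN
  -- a common bound for the positions where the first `N + 1` shifts differ
  have hsh : ∀ i i' : ℕ, ∃ t, i < i' → a (i + t) ≠ a (i' + t) := by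
    intro i i'
    by_cases h : i < i'
    · obtain ⟨t, ht⟩ := shifts_differ i i' h
      exact ⟨t, fun _ => ht⟩
    · exact ⟨0, fun h' => absurd h' h⟩
  choose T hT using hsh
  obtain ⟨e, he⟩ : ∃ e : ℕ, ∀ i ≤ N, ∀ i' ≤ N, T i i' < k ^ e := by
    set S := (Finset.range (N + 1) ×ˢ Finset.range (N + 1)).sup (fun p => T p.1 p.2) with hS
    refine ⟨S + 1, fun i hi i' hi' => ?_⟩
    have h1 : T i i' ≤ S := by
      apply Finset.le_sup (f := fun p : ℕ × ℕ => T p.1 p.2) (b := (i, i'))
      simp only [Finset.mem_product, Finset.mem_range]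
      omega
    have h2 : S + 1 < k ^ (S + 1) := Nat.lt_pow_self (by omega)
    omega
  have hq : 0 < k ^ e := by positivity
  -- every block `a[i, i + k^e)` occurs at a multiple of `k^e`
  have hocc : ∀ i : ℕ, ∃ n, ∀ j < k ^ e, a (k ^ e * n + j) = a (i + j) := by
    intro i
    obtain ⟨P, -, hPr, hPo⟩ := dense (i + k ^ e) (k ^ e) (k ^ e * i - i) 0 hq
    have hle : i ≤ k ^ e * i := Nat.le_mul_of_pos_left i hq
    have h1 : P + i ≡ 0 [MOD k ^ e] := by
      have := hPr.add_right i
      rw [Nat.sub_add_cancel hle] at this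
      exact this.trans (by simp [Nat.ModEq])
    obtain ⟨n, hn⟩ := (Nat.modEq_zero_iff_dvd).mp h1
    refine ⟨n, fun j hj => ?_⟩
    rw [← hn, add_assoc]
    apply hPo
    have := lt_len (i + k ^ e)
    omega
  choose ν hν using hocc
  obtain ⟨i, i', hne, hii'⟩ : ∃ i i' : Fin (N + 1), i ≠ i' ∧ F (ν i) = F (ν i') := by
    have := Fintype.exists_ne_map_eq_of_card_lt (fun i : Fin (N + 1) => F (ν i)) (by simp [hN])
    simpa using this
  wlog hlt : (i : ℕ) < i' generalizing i i'
  · refine this i' i hne.symm hii'.symm ?_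
    have : (i : ℕ) ≠ i' := fun h => hne (Fin.ext h)
    omega
  have hTlt := he i (by omega) i' (by omega)
  apply hT i i' hlt
  have hmem : (fun n => a (k ^ e * n + T i i')) ∈ kernel k a := ⟨e, T i i', hTlt, rfl⟩
  have := congrArg Fin.val (congrFun hii' ⟨_, hmem⟩)
  simp only [F] at this
  rw [hν _ _ hTlt, hν _ _ hTlt] at this
  exact this

end Pool.Agent.Helper162_fix
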